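import Mathlib
import Pool.Agent.helper81.DI.SpecC

/-! # Project di, module C3 (helper14): integrality and the values on class sums. -/

set_option autoImplicit false

namespace Pool.Agent.DI

open Pool.Agent.helper58.DC

/-- the sum of an irreducible character over a conjugation-invariant set, divided by the degree -/
theorem C3_scalar (H : Type) [Group H] [Finite H] (V : Type) [AddCommGroup V] [Module ℂ V]
    [FiniteDimensional ℂ V] (ρ : Representation ℂ H V) (hirr : ρ.IsIrreducible) (K : Finset H)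
    (hK : ∀ x h : H, h ∈ K ↔ x * h * x⁻¹ ∈ K) :
    IsIntegral ℤ ((∑ h ∈ K, ρ.character h) / ρ.character 1) := by
  classical
  have hint : IsIntegral ℤ (∑ h ∈ K, ρ h : Module.End ℂ V) := by
    have hz : IsIntegral ℤ (∑ h ∈ K, MonoidAlgebra.of ℤ H h) := IsIntegral.of_finite ℤ _
    have h2 := hz.map (MonoidAlgebra.lift ℤ (Module.End ℂ V) H ρ)
    rw [map_sum] at h2
    convert h2 using 2 with h hh
    simp
  have hcomm : ∀ x : H, (∑ h ∈ K, ρ h : Module.End ℂ V) ∘ₗ ρ x =
      ρ x ∘ₗ (∑ h ∈ K, ρ h : Module.End ℂ V) := by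
    intro x
    show (∑ h ∈ K, ρ h : Module.End ℂ V) * ρ x = ρ x * (∑ h ∈ K, ρ h : Module.End ℂ V)
    rw [Finset.sum_mul, Finset.mul_sum]
    symm
    refine Finset.sum_equiv (MulAut.conj x).toEquiv (fun h => ?_) (fun h _ => ?_)
    · simpa using hK x h
    · rw [← map_mul, ← map_mul]
      simp
  have hsch := Representation.IsIrreducible.algebraMap_intertwiningMap_bijective_of_isAlgClosed
    (ρ := ρ)
  obtain ⟨c, hc⟩ := hsch.2 ⟨(∑ h ∈ K, ρ h : Module.End ℂ V), hcomm⟩
  have hc' : (∑ h ∈ K, ρ h : Module.End ℂ V) = c • (1 : Module.End ℂ V) := by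
    have h3 := congrArg Representation.IntertwiningMap.toLinearMap hc
    rw [Representation.IntertwiningMap.algebraMap_apply] at h3
    exact h3.symm
  have htr : ∑ h ∈ K, ρ.character h = c * ρ.character 1 := by
    have h4 := congrArg (LinearMap.trace ℂ V) hc'
    rw [map_sum, map_smul, smul_eq_mul] at h4
    have h5 : ρ.character 1 = LinearMap.trace ℂ V (1 : Module.End ℂ V) := by
      unfold Representation.character
      rw [map_one]
    rw [h5, ← h4]
    rfl
  rw [htr]
  by_cases h0 : ρ.character 1 = 0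
  · rw [h0, mul_zero, zero_div]
    exact isIntegral_zero
  · rw [mul_div_cancel_right₀ _ h0]
    have hnt : Nontrivial V := by
      by_contra hV
      rw [not_nontrivial_iff_subsingleton] at hV
      apply h0
      rw [Representation.char_one]
      have := Module.finrank_zero_of_subsingleton (R := ℂ) (M := V)
      rw [this]
      simp
    rw [hc'] at hint
    have h6 : (c • (1 : Module.End ℂ V)) = IsScalarTower.toAlgHom ℤ ℂ (Module.End ℂ V) c := by
      rw [IsScalarTower.toAlgHom_apply, Algebra.algebraMap_eq_smul_one]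
    rw [h6, isIntegral_algHom_iff] at hint
    · exact hint
    · intro a b hab
      exact FaithfulSMul.algebraMap_injective ℂ (Module.End ℂ V) hab

/-- grouping by conjugacy classes -/
theorem C3_classes {H : Type} [Group H] [Fintype H] [DecidableEq (ConjClasses H)]
    [Fintype (ConjClasses H)] (z χ : H → ℂ) (hz : ∀ x y, z (y * x * y⁻¹) = z x) :
    ∑ x, z x * χ x = ∑ c : ConjClasses H,
      z (Quotient.out c) * ∑ x ∈ Finset.univ.filter (fun x : H => ConjClasses.mk x = c), χ x := by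
  rw [← Finset.sum_fiberwise Finset.univ (fun x : H => ConjClasses.mk x)]
  refine Finset.sum_congr rfl fun c _ => ?_
  rw [Finset.mul_sum]
  refine Finset.sum_congr rfl fun x hx => ?_
  have h1 : ConjClasses.mk x = c := (Finset.mem_filter.mp hx).2
  have h2 : ConjClasses.mk (Quotient.out c) = c := Quotient.out_eq c
  have h3 : IsConj (Quotient.out c) x := ConjClasses.mk_eq_mk_iff_isConj.mp (h2.trans h1.symm)
  obtain ⟨y, hy⟩ := isConj_iff.mp h3
  rw [← hy, hz]

/-- integrality for a class function with integral coefficients -/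
theorem C3_int {H : Type} [Group H] [Finite H] (χ : H → ℂ) (hχ : χ ∈ Irr H) (z : H → ℂ)
    (hz : ∀ x y, z (y * x * y⁻¹) = z x) (hi : ∀ x, IsIntegral ℤ (z x)) :
    IsIntegral ℤ ((∑ᶠ x, z x * χ x) / χ 1) := by
  classical
  have := Fintype.ofFinite H
  have : Fintype (ConjClasses H) := Fintype.ofFinite _
  rw [finsum_eq_sum_of_fintype, C3_classes z χ hz, Finset.sum_div]
  refine IsIntegral.sum _ fun c _ => ?_
  rw [mul_div_assoc]
  refine (hi _).mul ?_
  obtain ⟨V, _, _, _, ρ, hρ, rfl⟩ := hχ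
  refine C3_scalar H V ρ hρ _ fun x h => ?_
  simp only [Finset.mem_filter, Finset.mem_univ, true_and]
  have : ConjClasses.mk (x * h * x⁻¹) = ConjClasses.mk h :=
    ConjClasses.mk_eq_mk_iff_isConj.mpr (isConj_iff.mpr ⟨x, rfl⟩).symm
  rw [this]

/-- a function supported on a subgroup -/
theorem C3_sum {Γ : Type} [Group Γ] [Finite Γ] (L : Subgroup Γ) (f : Γ → ℂ)
    (hf : ∀ x, x ∉ L → f x = 0) : ∑ᶠ x, f x = ∑ᶠ x : L, f x := by
  classical
  have := Fintype.ofFinite Γ
  have := Fintype.ofFinite L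
  rw [finsum_eq_sum_of_fintype, finsum_eq_sum_of_fintype]
  refine (Fintype.sum_of_injective (fun x : L => (x : Γ)) Subtype.val_injective _ _ ?_
    fun _ => rfl).symm
  intro x hx
  exact hf x fun h => hx ⟨⟨x, h⟩, rfl⟩

theorem C3_first {Γ : Type} [Group Γ] [Finite Γ] (L : Subgroup Γ) (ψ : Γ → ℂ) (hψ : ψ ∈ IrrOn L)
    (z : Γ → ℂ) (hz : ∀ l ∈ L, ∀ x, z (l * x * l⁻¹) = z x) (hi : ∀ x, IsIntegral ℤ (z x)) :
    IsIntegral ℤ (cc ψ z) := by
  obtain ⟨hs, hI⟩ := hψ
  have e1 : ∑ᶠ x, z x * ψ x = ∑ᶠ x : L, z x * ψ x :=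
    C3_sum L (fun x => z x * ψ x) fun x hx => by simp [hs x hx]
  unfold cc
  rw [e1]
  exact C3_int (fun h : L => ψ (h : Γ)) hI (fun x : L => z x) (fun x y => hz y y.2 x)
    fun x => hi x

open Classical in
theorem C3_omega {Γ : Type} [Group Γ] [Finite Γ] (ψ : Γ → ℂ) (g : Γ) :
    omega ψ g = cc ψ (fun x => if x ∈ conjugatesOf g then 1 else 0) := by
  unfold omega cc
  congr 1
  refine finsum_congr fun x => ?_
  by_cases h : x ∈ conjugatesOf g
  · simp [h]
  · simp [h]

open Classical in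
theorem C3_ind {Γ : Type} [Group Γ] [Finite Γ] (g : Γ) :
    IsZO (fun x : Γ => if x ∈ conjugatesOf g then (1 : ℂ) else 0) := by
  refine ⟨fun x y => ?_, fun x => ?_⟩
  · have : (y * x * y⁻¹ ∈ conjugatesOf g) ↔ x ∈ conjugatesOf g := by
      have hxy : IsConj x (y * x * y⁻¹) := isConj_iff.mpr ⟨y, rfl⟩
      exact ⟨fun h => IsConj.trans h hxy.symm, fun h => IsConj.trans h hxy⟩
    simp only [this]
  · dsimp only
    split_ifs
    · exact isIntegral_one
    · exact isIntegral_zero

theorem C3_cc {Γ : Type} [Group Γ] [Finite Γ] (ψ z : Γ → ℂ) (hz : ∀ x y, z (y * x * y⁻¹) = z x) :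
    cc ψ z = ∑ᶠ c : ConjClasses Γ, z (Quotient.out c) * omega ψ (Quotient.out c) := by
  classical
  have := Fintype.ofFinite Γ
  have : Fintype (ConjClasses Γ) := Fintype.ofFinite _
  unfold cc omega
  rw [finsum_eq_sum_of_fintype, finsum_eq_sum_of_fintype, C3_classes z ψ hz, Finset.sum_div]
  refine Finset.sum_congr rfl fun c _ => ?_
  rw [mul_div_assoc]
  congr 2
  rw [← finsum_mem_coe_finset]
  refine finsum_mem_congr ?_ fun _ _ => rfl
  ext x
  have h2 : ConjClasses.mk (Quotient.out c) = c := Quotient.out_eq c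
  simp only [Finset.coe_filter, Finset.mem_univ, true_and, Set.mem_ofPred_eq]
  have h3 : x ∈ conjugatesOf (Quotient.out c) ↔ IsConj (Quotient.out c) x := Iff.rfl
  rw [h3, ← ConjClasses.mk_eq_mk_iff_isConj, h2]
  exact eq_comm

theorem C3 : C3_stmt := by
  classical
  intro Γ _ _
  refine ⟨fun L ψ hψ z hz hi => C3_first L ψ hψ z hz hi, fun ψ g => ⟨C3_omega ψ g, C3_ind g⟩,
    ?_, ?_⟩
  · intro p _ M hM hp ψ χ h z hz
    have : Fintype (ConjClasses Γ) := Fintype.ofFinite _
    rw [C3_cc ψ z hz.1, C3_cc χ z hz.1, finsum_eq_sum_of_fintype, finsum_eq_sum_of_fintype]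
    choose a ha he using h
    refine ⟨∑ c : ConjClasses Γ, (⟨z (Quotient.out c), hz.2 _⟩ : integralClosure ℤ ℂ) *
      a (Quotient.out c), Ideal.sum_mem _ fun c _ => Ideal.mul_mem_left _ _ (ha _), ?_⟩
    rw [← Finset.sum_sub_distrib]
    rw [AddSubmonoidClass.coe_finsetSum]
    refine Finset.sum_congr rfl fun c _ => ?_
    rw [← mul_sub, he]
    rfl
  · intro L ψ hψ g
    rw [C3_omega ψ g]
    exact C3_first L ψ hψ _ (fun l _ x => (C3_ind g).1 x l) (C3_ind g).2

end Pool.Agent.DI
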